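import Pool.Agent.Helper94.LR.Dense
import Pool.Agent.Helper21.LR.Stmts2

set_option autoImplicit false

open MvPolynomial Pool.Agent.Helper21.LR

namespace Pool.Agent.Helper94.LR

variable {m r : ℕ}

theorem eval_smul_hom {k d : ℕ} {f : MvPolynomial (Fin k) ℂ} (hf : f.IsHomogeneous d) (c : ℂ)
    (p : Fin k → ℂ) : eval (fun i => c * p i) f = c ^ d * eval p f := by
  rw [eval_eq', eval_eq', Finset.mul_sum]
  refine Finset.sum_congr rfl fun s hs => ?_
  have h1 : ∑ i, s i = d := by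
    have h2 := hf (mem_support_iff.1 hs)
    rw [← h2, Finsupp.weight_apply, Finsupp.sum_fintype _ _ (by simp)]
    simp
  rw [← h1, ← Finset.prod_pow_eq_pow_sum]
  simp only [mul_pow, Finset.prod_mul_distrib]
  ring

/-- the set of tuples which meet on the projective closure is closed -/
theorem isClosed_meet (Z : Set (Fin m → ℂ)) :
    IsClosed {u : Fin (r+1) × Fin (m+1) → ℂ | Meet Z r u} := by
  let K : Set (Fin (m+1) → ℂ) := Metric.sphere 0 1
  have : CompactSpace K := isCompact_iff_compactSpace.1 (isCompact_sphere 0 1)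
  let A : Set ((Fin (r+1) × Fin (m+1) → ℂ) × K) :=
    {q | (∀ (d : ℕ) (f : MvPolynomial (Fin (m+1)) ℂ), f.IsHomogeneous d →
      (∀ x ∈ Z, eval (Fin.cons 1 x : Fin (m+1) → ℂ) f = 0) → eval (q.2 : Fin (m+1) → ℂ) f = 0) ∧
      ∀ i, ∑ j, q.1 (i, j) * (q.2 : Fin (m+1) → ℂ) j = 0}
  have hA : IsClosed A := by
    have hA' : A = (⋂ (d : ℕ) (f : MvPolynomial (Fin (m+1)) ℂ) (_ : f.IsHomogeneous d)
        (_ : ∀ x ∈ Z, eval (Fin.cons 1 x : Fin (m+1) → ℂ) f = 0),
        {q : (Fin (r+1) × Fin (m+1) → ℂ) × K | eval (q.2 : Fin (m+1) → ℂ) f = 0}) ∩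
        ⋂ i, {q : (Fin (r+1) × Fin (m+1) → ℂ) × K |
          ∑ j, q.1 (i, j) * (q.2 : Fin (m+1) → ℂ) j = 0} := by
      ext q
      simp [A]
    rw [hA']
    apply IsClosed.inter
    · refine isClosed_iInter fun d => isClosed_iInter fun f => isClosed_iInter fun _ =>
        isClosed_iInter fun _ => ?_
      have hc : Continuous fun q : (Fin (r+1) × Fin (m+1) → ℂ) × K =>
          eval (q.2 : Fin (m+1) → ℂ) f :=
        (MvPolynomial.continuous_eval f).comp (continuous_subtype_val.comp continuous_snd)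
      exact isClosed_eq hc continuous_const
    · refine isClosed_iInter fun i => ?_
      have hc : Continuous fun q : (Fin (r+1) × Fin (m+1) → ℂ) × K =>
          ∑ j, q.1 (i, j) * (q.2 : Fin (m+1) → ℂ) j := by
        refine continuous_finsetSum _ fun j _ => ?_
        refine Continuous.mul ?_ ?_
        · exact (continuous_apply (i, j)).comp continuous_fst
        · exact (continuous_apply j).comp (continuous_subtype_val.comp continuous_snd)
      exact isClosed_eq hc continuous_const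
  have himg : {u : Fin (r+1) × Fin (m+1) → ℂ | Meet Z r u} = Prod.fst '' A := by
    ext u
    constructor
    · rintro ⟨p, ⟨hp0, hp1⟩, hp2⟩
      have hn : ‖p‖ ≠ 0 := norm_ne_zero_iff.2 hp0
      have hK : ((‖p‖ : ℂ)⁻¹ • p) ∈ K := by
        simp only [K, mem_sphere_iff_norm, sub_zero, norm_smul, norm_inv, Complex.norm_real,
          norm_norm]
        exact inv_mul_cancel₀ hn
      refine ⟨(u, ⟨(‖p‖ : ℂ)⁻¹ • p, hK⟩), ⟨?_, ?_⟩, rfl⟩
      · intro d f hf hv
        have h1 := hp1 d f hf hv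
        have h2 : eval ((‖p‖ : ℂ)⁻¹ • p) f = ((‖p‖ : ℂ)⁻¹) ^ d * eval p f := by
          rw [show ((‖p‖ : ℂ)⁻¹ • p) = fun i => (‖p‖ : ℂ)⁻¹ * p i from rfl]
          exact eval_smul_hom hf _ _
        change eval ((‖p‖ : ℂ)⁻¹ • p) f = 0
        rw [h2, h1, mul_zero]
      · intro i
        have h1 := hp2 i
        change ∑ j, u (i, j) * ((‖p‖ : ℂ)⁻¹ • p) j = 0
        have h2 : ∑ j, u (i, j) * ((‖p‖ : ℂ)⁻¹ • p) j = (‖p‖ : ℂ)⁻¹ * ∑ j, u (i, j) * p j := by
          rw [Finset.mul_sum]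
          apply Finset.sum_congr rfl
          intro j _
          simp only [Pi.smul_apply, smul_eq_mul]
          ring
        rw [h2, h1, mul_zero]
    · rintro ⟨q, ⟨hq1, hq2⟩, rfl⟩
      refine ⟨q.2, ⟨?_, hq1⟩, hq2⟩
      intro h0
      have := q.2.2
      simp only [K, mem_sphere_iff_norm, sub_zero, h0, norm_zero] at this
      exact zero_ne_one this
  rw [himg]
  exact isClosedMap_fst_of_compactSpace A hA

theorem prime_of_chow {ξ : Fin m → ℂ} {F : MvPolynomial (Fin (r+1) × Fin (m+1)) ℤ}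
    (h : IsChow r ξ F) : Prime F := by
  refine ⟨h.1, ?_, ?_⟩
  · intro hu
    have h1 := (h.2 1).2 hu.dvd
    have h2 := h1 0
    simp at h2
  · intro A B hAB
    have h1 := (h.2 _).2 hAB
    have key : ∀ G : MvPolynomial (Fin (r+1) × Fin (m+1)) ℤ, ∀ u : Fin (r+1) × Fin m → ℂ,
        eval u (genSub (r+1) ξ G) = aeval (thr ξ u) G := by
      intro G u
      have h3 : ((eval u : MvPolynomial (Fin (r+1) × Fin m) ℂ →+* ℂ).comp
          (genSub (r+1) ξ : MvPolynomial (Fin (r+1) × Fin (m+1)) ℤ →+*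
            MvPolynomial (Fin (r+1) × Fin m) ℂ)) = ((aeval (thr ξ u) :
            MvPolynomial (Fin (r+1) × Fin (m+1)) ℤ →ₐ[ℤ] ℂ) :
              MvPolynomial (Fin (r+1) × Fin (m+1)) ℤ →+* ℂ) := by
        apply MvPolynomial.ringHom_ext
        · intro n
          simp
        · rintro ⟨i, j⟩
          simp only [RingHom.coe_comp, RingHom.coe_coe, Function.comp_apply, genSub, aeval_X, thr]
          refine Fin.cases ?_ (fun j => ?_) j
          · simp [mul_comm]
          · simp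
      exact RingHom.congr_fun h3 G
    have h2 : genSub (r+1) ξ A * genSub (r+1) ξ B = 0 := by
      apply MvPolynomial.funext
      intro u
      rw [map_mul, map_zero, key, key, ← map_mul]
      exact h1 u
    rcases mul_eq_zero.1 h2 with h3 | h3
    · left
      refine (h.2 A).1 fun u => ?_
      rw [← key, h3, map_zero]
    · right
      refine (h.2 B).1 fun u => ?_
      rw [← key, h3, map_zero]

theorem meet_of_good {ξ : Fin m → ℂ} {F : MvPolynomial (Fin (r+1) × Fin (m+1)) ℤ}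
    (S : Split r ξ F) (u : Fin (r+1) × Fin (m+1) → ℂ) (hu : aeval u F = 0)
    (ha : aeval (fun ij : Fin r × Fin m => u (ij.1.succ, ij.2.succ)) S.a ≠ 0) :
    Meet {x | OnV ξ x} r u := by
  obtain ⟨p, hp1, hp2, hp3, -⟩ := S.pts (fun ij => u (ij.1.succ, ij.2)) ha
  have h1 := hp3 fun j => u (0, j)
  have h2 : consU (fun j => u (0, j)) (fun ij : Fin r × Fin (m+1) => u (ij.1.succ, ij.2)) = u := by
    funext ⟨i, j⟩
    refine Fin.cases ?_ (fun i => ?_) i
    · simp [consU]
    · simp [consU]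
  rw [h2, hu] at h1
  have h3 := mul_eq_zero.1 h1.symm
  rcases h3 with h3 | h3
  · exact absurd h3 ha
  obtain ⟨σ, -, hσ⟩ := Finset.prod_eq_zero_iff.1 h3
  refine ⟨Fin.cons 1 (p σ), ⟨?_, ?_⟩, ?_⟩
  · intro h0
    have := congrFun h0 0
    simp at this
  · intro d f _ hf
    exact hf (p σ) (hp1 σ)
  · intro i
    rw [Fin.sum_univ_succ]
    simp only [Fin.cons_zero, Fin.cons_succ, mul_one]
    refine Fin.cases ?_ (fun i => ?_) i
    · exact hσ
    · exact hp2 σ i

theorem meet2 (hS : SSplit) : SMeet2 := by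
  intro m r ξ F hV u₀ hu₀
  obtain ⟨S⟩ := hS m r ξ F hV
  let a' : MvPolynomial (Fin (r+1) × Fin (m+1)) ℤ :=
    rename (fun ij : Fin r × Fin m => (ij.1.succ, ij.2.succ)) S.a
  have ha' : ∀ u : Fin (r+1) × Fin (m+1) → ℂ, aeval u a' =
      aeval (fun ij : Fin r × Fin m => u (ij.1.succ, ij.2.succ)) S.a := by
    intro u
    rw [aeval_rename]
    rfl
  have hnd : ¬ F ∣ a' := by
    intro h
    have h1 := (hV.chow.2 a').2 h
    obtain ⟨y, -, hy⟩ := dense_ne S.a S.a_ne 0 Set.univ isOpen_univ (Set.mem_univ _)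
    apply hy
    have h2 := h1 (fun ij => Fin.cases (motive := fun _ => ℂ) 0 (fun i => y (i, ij.2)) ij.1)
    rw [ha'] at h2
    simpa [thr] using h2
  have hc := dense_zeros (prime_of_chow hV.chow) hnd u₀ hu₀
  have hsub : {u : Fin (r+1) × Fin (m+1) → ℂ | aeval u F = 0 ∧ aeval u a' ≠ 0} ⊆
      {u | Meet {x | OnV ξ x} r u} := by
    rintro u ⟨h1, h2⟩
    rw [ha'] at h2
    exact meet_of_good S u h1 h2
  exact (isClosed_meet (r := r) {x | OnV ξ x}).closure_subset_iff.2 hsub hc

end Pool.Agent.Helper94.LR
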