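import Pool.Agent.Helper94.LR.Shift

set_option autoImplicit false

open MvPolynomial

namespace Pool.Agent.Helper94.LR

variable {ι : Type*}

theorem eval_sh (v : ι → ℤ) (x : ι → ℂ) (t : ℂ) (G : MvPolynomial ι ℤ) :
    Polynomial.eval₂ ((aeval x : MvPolynomial ι ℤ →ₐ[ℤ] ℂ) : MvPolynomial ι ℤ →+* ℂ) t (sh v G) =
      aeval (fun k => x k + v k * t) G := by
  have h : (Polynomial.eval₂RingHom ((aeval x : MvPolynomial ι ℤ →ₐ[ℤ] ℂ) :
      MvPolynomial ι ℤ →+* ℂ) t).comp (sh v : MvPolynomial ι ℤ →+* _) =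
      ((aeval (fun k => x k + v k * t) : MvPolynomial ι ℤ →ₐ[ℤ] ℂ) : MvPolynomial ι ℤ →+* ℂ) := by
    apply MvPolynomial.ringHom_ext
    · intro n
      simp
    · intro k
      simp [sh_X]
      left
      exact map_intCast (Polynomial.eval₂RingHom ((aeval x : MvPolynomial ι ℤ →ₐ[ℤ] ℂ) :
        MvPolynomial ι ℤ →+* ℂ) t) (v k)
  exact RingHom.congr_fun h G

theorem prod_deg {R : Type*} [CommRing R] (s : Finset ι) (f : ι → Polynomial R) (d : ι → ℕ)
    (h : ∀ k ∈ s, (f k).natDegree ≤ d k) :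
    (∏ k ∈ s, f k).natDegree ≤ ∑ k ∈ s, d k ∧
      (∏ k ∈ s, f k).coeff (∑ k ∈ s, d k) = ∏ k ∈ s, (f k).coeff (d k) := by
  classical
  induction s using Finset.induction_on with
  | empty => simp
  | insert a s ha ih =>
    obtain ⟨h1, h2⟩ := ih fun k hk => h k (Finset.mem_insert_of_mem hk)
    have h3 := h a (Finset.mem_insert_self a s)
    rw [Finset.prod_insert ha, Finset.sum_insert ha, Finset.prod_insert ha]
    refine ⟨Polynomial.natDegree_mul_le.trans (add_le_add h3 h1), ?_⟩
    rw [Polynomial.coeff_mul_add_eq_of_natDegree_le h3 h1, h2]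

theorem lin_deg (v : ι → ℤ) (k : ι) :
    (Polynomial.C (X k : MvPolynomial ι ℤ) + Polynomial.C (C (v k)) * Polynomial.X).natDegree ≤ 1 ∧
    (Polynomial.C (X k : MvPolynomial ι ℤ) + Polynomial.C (C (v k)) * Polynomial.X).coeff 1 =
      C (v k) := by
  constructor
  · compute_degree
  · rw [Polynomial.coeff_add, Polynomial.coeff_C_mul, Polynomial.coeff_X_one, Polynomial.coeff_C]
    simp

theorem sh_monomial (v : ι → ℤ) (α : ι →₀ ℕ) (c : ℤ) :
    (sh v (monomial α c)).natDegree ≤ α.degree ∧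
      (sh v (monomial α c)).coeff α.degree = C (eval v (monomial α c)) := by
  have h1 : sh v (monomial α c) = Polynomial.C (C c) * ∏ k ∈ α.support,
      (Polynomial.C (X k : MvPolynomial ι ℤ) + Polynomial.C (C (v k)) * Polynomial.X) ^ α k := by
    rw [sh, aeval_monomial]
    simp [Finsupp.prod]
  obtain ⟨h2, h3⟩ := prod_deg α.support (fun k =>
      (Polynomial.C (X k : MvPolynomial ι ℤ) + Polynomial.C (C (v k)) * Polynomial.X) ^ α k)
      (fun k => α k) (fun k _ => by
        have := Polynomial.natDegree_pow_le_of_le (α k) (lin_deg v k).1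
        simpa using this)
  have hd : α.degree = ∑ k ∈ α.support, α k := Finsupp.degree_apply α
  rw [h1, hd]
  refine ⟨(Polynomial.natDegree_C_mul_le _ _).trans h2, ?_⟩
  rw [Polynomial.coeff_C_mul, h3, eval_monomial, C_mul, Finsupp.prod, map_prod]
  congr 1
  apply Finset.prod_congr rfl
  intro k _
  have h4 := Polynomial.coeff_pow_of_natDegree_le (m := α k) (lin_deg v k).1
  rw [mul_one] at h4
  rw [h4, (lin_deg v k).2, C_pow]

theorem sh_deg (v : ι → ℤ) (F : MvPolynomial ι ℤ) :
    (sh v F).natDegree ≤ F.totalDegree ∧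
      (sh v F).coeff F.totalDegree = C (eval v (homogeneousComponent F.totalDegree F)) := by
  classical
  have hs : sh v F = ∑ α ∈ F.support, sh v (monomial α (coeff α F)) := by
    conv_lhs => rw [F.as_sum]
    rw [map_sum]
  have hle : ∀ α ∈ F.support, α.degree ≤ F.totalDegree := fun α hα => by
    have := le_totalDegree hα
    rwa [Finsupp.degree_apply]
  constructor
  · rw [hs]
    apply Polynomial.natDegree_sum_le_of_forall_le
    intro α hα
    exact (sh_monomial v α _).1.trans (hle α hα)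
  · rw [hs, Polynomial.finsetSum_coeff, homogeneousComponent_apply, map_sum, map_sum,
      Finset.sum_filter]
    apply Finset.sum_congr rfl
    intro α hα
    split_ifs with h
    · rw [← h]
      exact (sh_monomial v α _).2
    · apply Polynomial.coeff_eq_zero_of_natDegree_lt
      exact lt_of_le_of_lt (sh_monomial v α _).1 (lt_of_le_of_ne (hle α hα) h)

theorem exists_dir (F : MvPolynomial ι ℤ) (hF : F ≠ 0) :
    ∃ v : ι → ℤ, eval v (homogeneousComponent F.totalDegree F) ≠ 0 := by
  by_contra hcon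
  push Not at hcon
  have h0 : homogeneousComponent F.totalDegree F = 0 := by
    apply MvPolynomial.funext
    intro v
    rw [hcon v, map_zero]
  have hne : F.support.Nonempty := by
    rwa [Finset.nonempty_iff_ne_empty, Ne, MvPolynomial.support_eq_empty]
  obtain ⟨α, hα, hd⟩ := Finset.exists_mem_eq_sup F.support hne fun s => s.sum fun _ e => e
  have h1 : coeff α (homogeneousComponent F.totalDegree F) = coeff α F := by
    rw [coeff_homogeneousComponent, if_pos]
    rw [Finsupp.degree_apply]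
    exact hd.symm
  rw [h0, coeff_zero] at h1
  exact (mem_support_iff.1 hα) h1.symm

theorem exists_small_root (p : Polynomial ℂ) (D : ℕ) (hD : p.natDegree ≤ D)
    (hl : p.coeff D ≠ 0) (ε : ℝ) (hε : 0 < ε) (h : ‖p.eval 0‖ < ‖p.coeff D‖ * ε ^ D) :
    ∃ t : ℂ, p.eval t = 0 ∧ ‖t‖ < ε := by
  by_contra hcon
  push Not at hcon
  have hnd : p.natDegree = D := le_antisymm hD (Polynomial.le_natDegree_of_ne_zero hl)
  have hp : p ≠ 0 := by
    rintro rfl
    simp at hl
  have hs := IsAlgClosed.splits p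
  have h1 := hs.eval_eq_prod_roots 0
  have hcard : Multiset.card p.roots = D := by
    rw [← hnd]
    exact hs.natDegree_eq_card_roots.symm
  have h2 : ∀ t ∈ p.roots, ε ≤ ‖t‖ := fun t ht => hcon t (by
    exact (Polynomial.mem_roots hp).1 ht)
  have h3 : ε ^ D ≤ ‖(p.roots.map fun a => (0 : ℂ) - a).prod‖ := by
    rw [← hcard]
    have : ∀ s : Multiset ℂ, (∀ t ∈ s, ε ≤ ‖t‖) →
        ε ^ (Multiset.card s) ≤ ‖(s.map fun a => (0 : ℂ) - a).prod‖ := by
      intro s
      induction s using Multiset.induction_on with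
      | empty => intro _; simp
      | cons a s ih =>
        intro hs
        rw [Multiset.map_cons, Multiset.prod_cons, norm_mul, Multiset.card_cons, pow_succ,
          mul_comm]
        apply mul_le_mul
        · simpa using hs a (Multiset.mem_cons_self a s)
        · exact ih fun t ht => hs t (Multiset.mem_cons_of_mem ht)
        · positivity
        · positivity
    exact this _ h2
  rw [h1, norm_mul, Polynomial.leadingCoeff, hnd] at h
  have h4 := mul_le_mul_of_nonneg_left h3 (norm_nonneg (p.coeff D))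
  linarith

/-- the nonvanishing set of a polynomial is dense -/
theorem dense_ne [Finite ι] (R : MvPolynomial ι ℤ) (hR : R ≠ 0) (u₀ : ι → ℂ) (V : Set (ι → ℂ))
    (hV : IsOpen V) (hu : u₀ ∈ V) : ∃ x ∈ V, aeval x R ≠ 0 := by
  classical
  have : Fintype ι := Fintype.ofFinite ι
  obtain ⟨y, hy⟩ : ∃ y : ι → ℂ, aeval y R ≠ 0 := by
    by_contra hcon
    push Not at hcon
    apply hR
    have h1 : MvPolynomial.map (Int.castRingHom ℂ) R = 0 := by
      apply MvPolynomial.funext
      intro y
      have := hcon y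
      rw [aeval_def] at this
      rw [eval_map, map_zero]
      exact this
    exact MvPolynomial.map_injective _ Int.cast_injective (h1.trans (map_zero _).symm)
  -- restriction to the line through `u₀` and `y`
  let q : Polynomial ℂ := aeval (fun k => Polynomial.C (u₀ k) +
    Polynomial.C (y k - u₀ k) * Polynomial.X : ι → Polynomial ℂ) R
  have hq : ∀ t : ℂ, q.eval t = aeval (fun k => u₀ k + (y k - u₀ k) * t) R := by
    intro t
    have h := MvPolynomial.map_aeval (fun k => Polynomial.C (u₀ k) +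
      Polynomial.C (y k - u₀ k) * Polynomial.X : ι → Polynomial ℂ) (Polynomial.evalRingHom t) R
    have h2 : q.eval t = (Polynomial.evalRingHom t) q := rfl
    rw [h2, h, aeval_def, MvPolynomial.coe_eval₂Hom]
    congr 1
    · ext n
      simp
    · funext k
      simp
  have hq0 : q ≠ 0 := by
    intro h0
    apply hy
    have := hq 1
    rw [h0, Polynomial.eval_zero] at this
    have h3 : (fun k => u₀ k + (y k - u₀ k) * 1) = y := by
      funext k
      ring
    rw [h3] at this
    exact this.symm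
  have hcont : Continuous fun t : ℂ => (fun k => u₀ k + (y k - u₀ k) * t : ι → ℂ) := by
    fun_prop
  have hopen : IsOpen ((fun t : ℂ => (fun k => u₀ k + (y k - u₀ k) * t : ι → ℂ)) ⁻¹' V) :=
    hV.preimage hcont
  have hmem : (0 : ℂ) ∈ ((fun t : ℂ => (fun k => u₀ k + (y k - u₀ k) * t : ι → ℂ)) ⁻¹' V) := by
    simpa using hu
  have hinf : Set.Infinite ((fun t : ℂ => (fun k => u₀ k + (y k - u₀ k) * t : ι → ℂ)) ⁻¹' V) :=
    infinite_of_mem_nhds 0 (hopen.mem_nhds hmem)
  obtain ⟨t, ht, ht2⟩ := hinf.exists_notMem_finset q.roots.toFinset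
  refine ⟨_, ht, ?_⟩
  intro h0
  apply ht2
  rw [Multiset.mem_toFinset, Polynomial.mem_roots hq0, Polynomial.IsRoot.def, hq t]
  exact h0

theorem dense_zeros [Finite ι] {F a : MvPolynomial ι ℤ} (hF : Prime F) (ha : ¬ F ∣ a)
    (u₀ : ι → ℂ) (h0 : aeval u₀ F = 0) :
    u₀ ∈ closure {u : ι → ℂ | aeval u F = 0 ∧ aeval u a ≠ 0} := by
  classical
  have : Fintype ι := Fintype.ofFinite ι
  obtain ⟨v, hv⟩ := exists_dir F hF.ne_zero
  obtain ⟨hd1, hd2⟩ := sh_deg v F
  set D := F.totalDegree with hD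
  set ℓ := eval v (homogeneousComponent D F) with hℓ
  have hD0 : D ≠ 0 := by
    intro h
    rw [hD] at h
    have h1 := (totalDegree_eq_zero_iff_eq_C).1 h
    have h2 : aeval u₀ F = algebraMap ℤ ℂ (coeff 0 F) := by
      conv_lhs => rw [h1]
      exact aeval_C _ _
    rw [h0, algebraMap_int_eq, eq_intCast] at h2
    have h3 : coeff 0 F = 0 := by exact_mod_cast h2.symm
    apply hF.ne_zero
    rw [h1, h3, C_0]
  have hnd : (sh v F).natDegree ≠ 0 := by
    intro h
    have h1 : (sh v F).coeff D = 0 := Polynomial.coeff_eq_zero_of_natDegree_lt (by omega)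
    rw [hd2] at h1
    exact hv (C_injective _ _ (h1.trans C_0.symm))
  obtain ⟨R, α, β, hR, hres⟩ := exists_res v hF ha hnd
  rw [Metric.mem_closure_iff]
  intro ε hε
  set ε₁ := ε / (2 * (‖(fun k => (v k : ℂ))‖ + 1)) with hε₁
  have hε₁0 : 0 < ε₁ := by positivity
  have hcont : Continuous fun x : ι → ℂ => ‖aeval x F‖ := by
    have : Continuous fun x : ι → ℂ => aeval x F := by
      have h2 : (fun x : ι → ℂ => aeval x F) =
          fun x => eval x (MvPolynomial.map (Int.castRingHom ℂ) F) := by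
        funext x
        rw [eval_map, aeval_def]
        rfl
      rw [h2]
      exact MvPolynomial.continuous_eval _
    exact this.norm
  have hopen : IsOpen ({x : ι → ℂ | ‖aeval x F‖ < ‖(ℓ : ℂ)‖ * ε₁ ^ D} ∩
      Metric.ball u₀ (ε / 2)) :=
    (isOpen_lt hcont continuous_const).inter Metric.isOpen_ball
  have hℓ0 : (ℓ : ℂ) ≠ 0 := by exact_mod_cast hv
  have hmem : u₀ ∈ ({x : ι → ℂ | ‖aeval x F‖ < ‖(ℓ : ℂ)‖ * ε₁ ^ D} ∩
      Metric.ball u₀ (ε / 2)) := by
    refine ⟨?_, Metric.mem_ball_self (by positivity)⟩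
    simp only [Set.mem_ofPred_eq, h0, norm_zero]
    positivity
  obtain ⟨x, ⟨hx1, hx2⟩, hx3⟩ := dense_ne R hR u₀ _ hopen hmem
  let φ : MvPolynomial ι ℤ →+* ℂ := ((aeval x : MvPolynomial ι ℤ →ₐ[ℤ] ℂ) :
    MvPolynomial ι ℤ →+* ℂ)
  have hev : ∀ t : ℂ, ((sh v F).map φ).eval t = aeval (fun k => x k + v k * t) F := by
    intro t
    rw [Polynomial.eval_map]
    exact eval_sh v x t F
  have hco : ((sh v F).map φ).coeff D = (ℓ : ℂ) := by
    rw [Polynomial.coeff_map, hd2]
    simp [φ]
  obtain ⟨t, ht1, ht2⟩ := exists_small_root ((sh v F).map φ) D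
    (Polynomial.natDegree_map_le.trans hd1) (by rw [hco]; exact hℓ0) ε₁ hε₁0 (by
      rw [hco, hev]
      simpa using hx1)
  rw [hev] at ht1
  refine ⟨fun k => x k + v k * t, ⟨ht1, ?_⟩, ?_⟩
  · intro h2
    apply hx3
    have h3 := congrArg (Polynomial.eval₂ φ t) hres
    rw [Polynomial.eval₂_add, Polynomial.eval₂_mul, Polynomial.eval₂_mul, Polynomial.eval₂_C,
      eval_sh v x t F, eval_sh v x t a, ht1, h2, mul_zero, mul_zero, add_zero] at h3
    exact h3.symm
  · have h4 : dist u₀ x < ε / 2 := by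
      rw [dist_comm]
      exact hx2
    have h5 : dist x (fun k => x k + v k * t) ≤ ‖(fun k => (v k : ℂ))‖ * ‖t‖ := by
      rw [dist_eq_norm, pi_norm_le_iff_of_nonneg (by positivity)]
      intro k
      simp only [Pi.sub_apply, sub_add_cancel_left, norm_neg, norm_mul]
      exact mul_le_mul_of_nonneg_right (norm_le_pi_norm (fun k => (v k : ℂ)) k) (norm_nonneg t)
    have h6 : ‖(fun k => (v k : ℂ))‖ * ‖t‖ ≤ ε / 2 := by
      have h7 : ‖(fun k => (v k : ℂ))‖ * ‖t‖ ≤ (‖(fun k => (v k : ℂ))‖ + 1) * ε₁ :=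
        mul_le_mul (by linarith) ht2.le (norm_nonneg t) (by positivity)
      have h8 : (‖(fun k => (v k : ℂ))‖ + 1) * ε₁ = ε / 2 := by
        rw [hε₁]
        field_simp
      linarith
    calc dist u₀ (fun k => x k + v k * t) ≤ dist u₀ x + dist x (fun k => x k + v k * t) :=
          dist_triangle _ _ _
      _ < ε := by linarith

end Pool.Agent.Helper94.LR
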