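import Mathlib

/-!
Zeros of a prime integer polynomial off another polynomial are dense among its zeros.
-/

set_option autoImplicit false

open MvPolynomial

namespace Pool.Agent.Helper94.LR

variable {ι : Type*}

/-- the shift `x ↦ x + T v` -/
noncomputable def sh (v : ι → ℤ) : MvPolynomial ι ℤ →ₐ[ℤ] Polynomial (MvPolynomial ι ℤ) :=
  aeval fun k => Polynomial.C (X k) + Polynomial.C (C (v k)) * Polynomial.X

/-- the extension of the shift to polynomials in `T` -/
noncomputable def psi (v : ι → ℤ) :
    Polynomial (MvPolynomial ι ℤ) →+* Polynomial (MvPolynomial ι ℤ) :=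
  Polynomial.eval₂RingHom (sh v : MvPolynomial ι ℤ →+* _) Polynomial.X

theorem psi_C (v : ι → ℤ) (G : MvPolynomial ι ℤ) : psi v (Polynomial.C G) = sh v G := by
  simp [psi]

theorem psi_X (v : ι → ℤ) : psi v Polynomial.X = Polynomial.X := by
  simp [psi]

theorem sh_X (v : ι → ℤ) (k : ι) :
    sh v (X k) = Polynomial.C (X k) + Polynomial.C (C (v k)) * Polynomial.X := by
  simp [sh]

theorem sh_C (v : ι → ℤ) (n : ℤ) : sh v (C n) = Polynomial.C (C n) := by
  simp [sh]

theorem psi_psi (v : ι → ℤ) : (psi (fun k => -v k)).comp (psi v) = RingHom.id _ := by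
  apply Polynomial.ringHom_ext'
  · apply MvPolynomial.ringHom_ext
    · intro n
      simp [psi_C, sh_C]
    · intro k
      simp [psi_C, sh_X, psi_X, map_add, map_mul]
      ring
  · simp [psi_X]

/-- the shift as an automorphism -/
noncomputable def psiE (v : ι → ℤ) :
    Polynomial (MvPolynomial ι ℤ) ≃+* Polynomial (MvPolynomial ι ℤ) :=
  RingEquiv.ofRingHom (psi v) (psi (fun k => -v k))
    (by
      have h := psi_psi (ι := ι) (fun k => -v k)
      simpa using h)
    (psi_psi v)

theorem psiE_apply (v : ι → ℤ) (P : Polynomial (MvPolynomial ι ℤ)) : psiE v P = psi v P := rfl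

theorem prime_sh (v : ι → ℤ) {F : MvPolynomial ι ℤ} (hF : Prime F) : Prime (sh v F) := by
  have h := (Polynomial.prime_C_iff.2 hF)
  have h2 := (MulEquiv.prime_iff (psiE v).toMulEquiv).2 h
  have h3 : (psiE v).toMulEquiv (Polynomial.C F) = sh v F := psi_C v F
  rwa [h3] at h2

theorem dvd_of_sh_dvd (v : ι → ℤ) {F a : MvPolynomial ι ℤ} (h : sh v F ∣ sh v a) : F ∣ a := by
  obtain ⟨S, hS⟩ := h
  have h1 := congrArg (psi fun k => -v k) hS
  rw [map_mul, ← psi_C v, ← psi_C v] at h1
  have h2 : ∀ P, psi (fun k => -v k) (psi v P) = P := fun P => RingHom.congr_fun (psi_psi v) P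
  rw [h2, h2] at h1
  have h3 := congrArg (fun P => Polynomial.coeff P 0) h1
  simp only [Polynomial.coeff_C_zero, Polynomial.mul_coeff_zero] at h3
  exact ⟨_, h3⟩

theorem exists_res [Finite ι] (v : ι → ℤ) {F a : MvPolynomial ι ℤ} (hF : Prime F) (ha : ¬ F ∣ a)
    (hdeg : (sh v F).natDegree ≠ 0) :
    ∃ (R : MvPolynomial ι ℤ) (α β : Polynomial (MvPolynomial ι ℤ)), R ≠ 0 ∧
      α * sh v F + β * sh v a = Polynomial.C R := by
  classical
  let A := MvPolynomial ι ℤ
  let K := FractionRing A
  let _ : NormalizedGCDMonoid A := Classical.arbitrary _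
  have hP : Prime (sh v F) := prime_sh v hF
  have hprim : (sh v F).IsPrimitive := hP.irreducible.isPrimitive hdeg
  have hirr : Irreducible ((sh v F).map (algebraMap A K)) :=
    (hprim.irreducible_iff_irreducible_map_fraction_map (K := K)).1 hP.irreducible
  have hclear : ∀ S : Polynomial K, ∃ (c : A) (S' : Polynomial A), c ≠ 0 ∧
      S'.map (algebraMap A K) = Polynomial.C (algebraMap A K c) * S := by
    intro S
    obtain ⟨b, hb0, hb⟩ := IsLocalization.integerNormalization_spec (nonZeroDivisors A) S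
    refine ⟨b, IsLocalization.integerNormalization (nonZeroDivisors A) S,
      nonZeroDivisors.ne_zero hb0, ?_⟩
    rw [hb, ← Polynomial.smul_eq_C_mul, algebraMap_smul]
  have hinj : Function.Injective (Polynomial.map (algebraMap A K)) :=
    Polynomial.map_injective _ (IsFractionRing.injective A K)
  have hnd : ¬ (sh v F).map (algebraMap A K) ∣ (sh v a).map (algebraMap A K) := by
    rintro ⟨S, hS⟩
    obtain ⟨c, S', hc, hS'⟩ := hclear S
    have h1 : Polynomial.C c * sh v a = sh v F * S' := by
      apply hinj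
      rw [Polynomial.map_mul, Polynomial.map_mul, hS', hS, Polynomial.map_C]
      ring
    have h2 : sh v F ∣ Polynomial.C c * sh v a := ⟨_, h1⟩
    rcases hP.2.2 _ _ h2 with h | h
    · have h3 := Polynomial.natDegree_le_of_dvd h (by simpa using hc)
      rw [Polynomial.natDegree_C] at h3
      omega
    · exact ha (dvd_of_sh_dvd v h)
  have hcop := (hirr.coprime_iff_not_dvd).2 hnd
  obtain ⟨α, β, hαβ⟩ := hcop
  obtain ⟨c1, α', hc1, hα⟩ := hclear α
  obtain ⟨c2, β', hc2, hβ⟩ := hclear β
  refine ⟨c1 * c2, Polynomial.C c2 * α', Polynomial.C c1 * β', mul_ne_zero hc1 hc2, ?_⟩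
  apply hinj
  rw [Polynomial.map_add, Polynomial.map_mul, Polynomial.map_mul, Polynomial.map_mul,
    Polynomial.map_mul, hα, hβ, Polynomial.map_C, Polynomial.map_C, Polynomial.map_C, map_mul,
    Polynomial.C_mul]
  linear_combination Polynomial.C (algebraMap A K c1) * Polynomial.C (algebraMap A K c2) * hαβ

end Pool.Agent.Helper94.LR
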